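import Pool.Agent.Q195.Kothe.Main

/-!
# MP_07c133_an: an approximately contractible Kothe algebra which is not nuclear
-/

open Q195.Kothe
open scoped NNReal

namespace Pool.Agent.Results.MP_07c133_an.NotNuclear

universe u

/-- There is a Kothe set `P` (on a countable index set) such that the Kothe space `λ(P)` is a Kothe
algebra which is approximately contractible and not nuclear. -/
theorem result : ∃ (I : Type) (_ : Countable I) (P : Set (I → ℝ≥0)), IsKotheSet P ∧
    IsKotheAlgebra P ∧ ApproxContractible.{u} P ∧ ¬ IsNuclearSpace ℂ (Lam P) :=
  ⟨Ix, inferInstance, P0, isKothe, isAlg, approx, notNuclear⟩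

end Pool.Agent.Results.MP_07c133_an.NotNuclear
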